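import Pool.Agent.V5helper90.LU.Up
import Pool.Agent.TH990.FU.Top
import Pool.Agent.Results.MP_6bd702_pr.LimitCurves

/-!
Boundaries of the components of the complement of the limits of the closed lattice path which traces
the outer boundary of the largest critical cluster: upper bounds.
-/

set_option autoImplicit false

namespace Pool.Agent.V5helper90.LU

open H974 H12S Finset H389NS H984P H984N H342P H342L H342T
open MeasureTheory Filter Topology Measure Pool.Agent.W92.DP Pool.Agent.W462.DPL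
open Pool.Agent.W424.OD Pool.Agent.TH990.FU Pool.Agent.W822.PD Pool.Agent.W978.PDUL
open Pool.Agent.Results.MP_6bd702_pr
open scoped ENNReal NNReal

theorem e43 : (4 / 3 : ℝ≥0∞) = ENNReal.ofReal (4 / 3) := by
  rw [ENNReal.ofReal_div_of_pos (by norm_num)]; norm_num

theorem univ_dim : dimH (Set.univ : Set ℂ) - ENNReal.ofReal (2 / 3) = 4 / 3 := by
  rw [Real.dimH_univ_eq_finrank, Complex.finrank_real_complex, Nat.cast_ofNat]
  have h : (2 : ℝ≥0∞) = ENNReal.ofReal 2 := by norm_num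
  rw [h, ← ENNReal.ofReal_sub _ (by norm_num), e43]
  norm_num

/-- The boundary of the square has dimension at most one. -/
theorem sq_dim : dimH (csq \ Sq) ≤ 1 := by
  have hsub : csq \ Sq ⊆
      ((Set.range fun t : ℝ => (0 : ℂ) + (t : ℂ) * 1) ∪
        (Set.range fun t : ℝ => Complex.I + (t : ℂ) * 1)) ∪
      ((Set.range fun t : ℝ => (0 : ℂ) + (t : ℂ) * Complex.I) ∪
        (Set.range fun t : ℝ => (1 : ℂ) + (t : ℂ) * Complex.I)) := by
    rintro z ⟨⟨⟨h1, h2⟩, h3, h4⟩, h5⟩
    by_cases a1 : z.re = 0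
    · right; left; exact ⟨z.im, by apply Complex.ext <;> simp [a1]⟩
    by_cases a2 : z.re = 1
    · right; right; exact ⟨z.im, by apply Complex.ext <;> simp [a2]⟩
    by_cases a3 : z.im = 0
    · left; left; exact ⟨z.re, by apply Complex.ext <;> simp [a3]⟩
    by_cases a4 : z.im = 1
    · left; right; exact ⟨z.re, by apply Complex.ext <;> simp [a4]⟩
    exfalso
    apply h5
    exact ⟨lt_of_le_of_ne h1 (Ne.symm a1), lt_of_le_of_ne h2 a2,
      lt_of_le_of_ne h3 (Ne.symm a3), lt_of_le_of_ne h4 a4⟩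
  refine (dimH_mono hsub).trans ?_
  rw [dimH_union, dimH_union, dimH_union]
  exact max_le (max_le (SQ_line _ _) (SQ_line _ _)) (max_le (SQ_line _ _) (SQ_line _ _))

/-- The outer boundary of the trace consists of accessible points. -/
theorem oB_acc {f : C(unitInterval, ℂ)} (hne : ∃ s t, f s ≠ f t) :
    oB (Set.range f) ⊆ ⋃ i : ℕ, Acc (1 / ((i:ℝ) + 1)) f := by
  intro w hw
  have hK : IsCompact (Set.range f) := isCompact_range f.continuous
  have hwK : w ∈ Set.range f := oB_sub hK.isClosed hw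
  obtain ⟨s0, t0, hst⟩ := hne
  have h3 : ∃ u, f u ≠ w := by
    by_contra hcon
    push Not at hcon
    exact hst ((hcon s0).trans (hcon t0).symm)
  obtain ⟨u, hu⟩ := h3
  obtain ⟨i, hi⟩ := exists_nat_one_div_lt (dist_pos.2 hu)
  refine Set.mem_iUnion.2 ⟨i, hwK, ⟨u, hi.le⟩, fun r hr => ?_⟩
  obtain ⟨g, g1, g2, ζ, hζ, g3⟩ := exists_path hK hw hr (‖w‖ + 1)
  refine ⟨g, g1, ?_, fun t ht => ?_⟩
  · have h5 : (1:ℝ) / ((i:ℝ) + 1) ≤ 1 := by
      rw [div_le_one (by positivity)]
      have : (0:ℝ) ≤ i := Nat.cast_nonneg _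
      linarith
    have h6 : ‖g 1‖ ≤ dist (g 1) w + ‖w‖ := by
      rw [dist_eq_norm]
      have := norm_add_le (g 1 - w) w
      rwa [sub_add_cancel] at this
    linarith
  · have h4 := g3 t _ ht
    rw [dist_self] at h4
    linarith

section
variable (sel : (n : ℕ) → Finset Plain.Edge → ℤ × ℤ)
  (hsel : ∀ n F, 0 < n → F ⊆ Plain.edges n → Plain.Largest n F (sel n F))
  (γ : (n : ℕ) → Finset Plain.Edge → Curve)
  (hγ : ∀ n F, 0 < n → F ⊆ Plain.edges n → (γ n F).path 0 = (γ n F).path 1 ∧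
    Set.range (γ n F).path = outerBoundary n F (sel n F))
include hsel hγ

theorem trR : TrR sel γ := by
  intro n F hn hF
  obtain ⟨c, hc⟩ := t_EXI n F (sel n F) hn hF (hsel n F hn hF).1
  refine ⟨c, hc, ?_⟩
  rw [(hγ n F hn hF).2, (LimitCurves.rng n F (sel n F) c hn hF (hsel n F hn hF).1 hc).2]

variable (k : ℕ → ℕ) (μ : ProbabilityMeasure Curve) (hk : Tendsto k atTop atTop)
  (hμ : Tendsto (fun i => lawOf (k i) (γ (k i))) atTop (𝓝 μ))
include hk hμ

/-- The limits are not constant. -/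
theorem nonconst : ∀ᵐ c : Curve ∂(μ : Measure Curve), ∃ s t, c.path s ≠ c.path t := by
  have h := (LimitCurves.result.2 sel hsel).2 γ hγ k μ hk hμ
  filter_upwards [h] with c hc
  by_contra hcon
  push Not at hcon
  have h1 : Set.range c.path ⊆ {c.path 0} := by
    rintro _ ⟨s, rfl⟩
    exact hcon s 0
  have h2 := dimH_mono h1
  rw [hc.2.1, dimH_singleton] at h2
  exact absurd h2 (by norm_num)

/-- The limits stay in the closed unit square. -/
theorem in_square : ∀ᵐ c : Curve ∂(μ : Measure Curve), Set.range c.path ⊆ csq := by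
  have hopen : IsOpen {c : Curve | ∃ s : unitInterval, c.path s ∈ csqᶜ} := by
    have h : IsOpen {K : TopologicalSpace.NonemptyCompacts ℂ | ((K : Set ℂ) ∩ csqᶜ).Nonempty} :=
      TopologicalSpace.NonemptyCompacts.isOpen_inter_nonempty_of_isOpen isClosed_csq.isOpen_compl
    have h2 := h.preimage Curve.continuous_trace
    have e : {c : Curve | ∃ s : unitInterval, c.path s ∈ csqᶜ} = Curve.trace ⁻¹'
        {K : TopologicalSpace.NonemptyCompacts ℂ | ((K : Set ℂ) ∩ csqᶜ).Nonempty} := by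
      ext c
      constructor
      · rintro ⟨s, hs⟩
        exact ⟨c.path s, ⟨s, rfl⟩, hs⟩
      · rintro ⟨_, ⟨s, rfl⟩, hs⟩
        exact ⟨s, hs⟩
    rw [e]
    exact h2
  have h0 : (μ : Measure Curve) {c : Curve | ∃ s : unitInterval, c.path s ∈ csqᶜ} = 0 := by
    apply le_antisymm _ bot_le
    refine (ProbabilityMeasure.le_liminf_measure_open_of_tendsto hμ hopen).trans ?_
    refine liminf_le_of_frequently_le (Eventually.frequently ?_)
    filter_upwards [tendsto_atTop.mp hk 1] with i hi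
    rw [lawOf_apply _ _ hopen.measurableSet]
    have : Plain.prob (k i) (fun F => γ (k i) F ∈
        {c : Curve | ∃ s : unitInterval, c.path s ∈ csqᶜ}) ≤ Plain.prob (k i) (fun _ => ¬ True) := by
      apply prob_mono
      rintro F hF ⟨s, hs⟩
      have h1 : (γ (k i) F).path s ∈ outerBoundary (k i) F (sel (k i) F) := by
        rw [← (hγ (k i) F hi hF).2]
        exact ⟨s, rfl⟩
      exact absurd ((t_CPT (k i) F (sel (k i) F)).2.2 hi hF (hsel _ _ hi hF).1 _ h1) hs
    rw [Plain.prob_not, prob_true, sub_self] at this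
    rw [ENNReal.ofReal_of_nonpos this]
    exact le_rfl
  filter_upwards [compl_mem_ae_iff.mpr h0] with c hc
  rintro _ ⟨s, rfl⟩
  by_contra hcon
  exact hc ⟨s, hcon⟩

/-- **The boundary of every component of the complement: upper bound.** -/
theorem upper_all : ∀ᵐ c : Curve ∂(μ : Measure Curve),
    dimH (oB (Set.range c.path) ∪
      ⋃ x : ℂ, frontier (connectedComponentIn (Set.range c.path)ᶜ x)) ≤ 4/3 := by
  filter_upwards [acc_fixedL Pool.Agent.W424.KI.u3 (trR sel hsel γ hγ) hk hμ Set.univ,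
    nonconst sel hsel γ hγ k μ hk hμ, in_square sel hsel γ hγ k μ hk hμ] with c h1 h2 h3
  have h4 : oB (Set.range c.path) ∪
      (⋃ x : ℂ, frontier (connectedComponentIn (Set.range c.path)ᶜ x)) ⊆
      ((⋃ i : ℕ, Acc (1 / ((i:ℝ) + 1)) c.path) ∩ Set.univ ∩ Sq) ∪ (csq \ Sq) := by
    intro w hw
    have h5 : w ∈ ⋃ i : ℕ, Acc (1 / ((i:ℝ) + 1)) c.path := by
      rcases hw with hw | hw
      · exact oB_acc h2 hw
      · exact frontiers_acc h2 hw
    by_cases hwS : w ∈ Sq
    · exact Or.inl ⟨⟨h5, Set.mem_univ _⟩, hwS⟩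
    · obtain ⟨i, hi⟩ := Set.mem_iUnion.1 h5
      exact Or.inr ⟨h3 hi.1, hwS⟩
  refine (dimH_mono h4).trans ?_
  rw [dimH_union]
  refine max_le (h1.1.trans (le_of_eq univ_dim)) (sq_dim.trans ?_)
  rw [e43, ← ENNReal.ofReal_one]
  exact ENNReal.ofReal_le_ofReal (by norm_num)

/-- **Upper bound for the outer boundary.** -/
theorem upper : ∀ᵐ c : Curve ∂(μ : Measure Curve), dimH (oB (Set.range c.path)) ≤ 4/3 := by
  filter_upwards [upper_all sel hsel γ hγ k μ hk hμ] with c hc
  exact (dimH_mono Set.subset_union_left).trans hc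

/-- Intersection with a fixed set. -/
theorem upper_fixed (T : Set ℂ) : ∀ᵐ c : Curve ∂(μ : Measure Curve),
    dimH ((oB (Set.range c.path) ∪
      ⋃ x : ℂ, frontier (connectedComponentIn (Set.range c.path)ᶜ x)) ∩ Sq ∩ T) ≤ dimH T - 2 / 3 ∧
    (μH[2 / 3] T = 0 → (oB (Set.range c.path) ∪
      ⋃ x : ℂ, frontier (connectedComponentIn (Set.range c.path)ᶜ x)) ∩ Sq ∩ T = ∅) := by
  have e23 : ENNReal.ofReal (2 / 3) = 2 / 3 := by
    rw [ENNReal.ofReal_div_of_pos (by norm_num)]; norm_num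
  filter_upwards [acc_fixedL Pool.Agent.W424.KI.u3 (trR sel hsel γ hγ) hk hμ T,
    nonconst sel hsel γ hγ k μ hk hμ] with c h1 h2
  have key : (oB (Set.range c.path) ∪
      ⋃ x : ℂ, frontier (connectedComponentIn (Set.range c.path)ᶜ x)) ∩ Sq ∩ T ⊆
      (⋃ i : ℕ, Acc (1 / ((i:ℝ) + 1)) c.path) ∩ T ∩ Sq := by
    rintro w ⟨⟨hw | hw, hw2⟩, hw3⟩
    · exact ⟨⟨oB_acc h2 hw, hw3⟩, hw2⟩
    · exact ⟨⟨frontiers_acc h2 hw, hw3⟩, hw2⟩
  constructor
  · rw [← e23]
    exact (dimH_mono key).trans h1.1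
  · intro hT0
    rw [h1.2 hT0] at key
    exact Set.subset_empty_iff.1 key

end

end Pool.Agent.V5helper90.LU
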