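import Pool.Agent.TH990.FU.CovF
import Pool.Agent.TH990.FU.Geo
import Pool.Agent.W978.PD.UL
import Pool.Agent.W424.KI.Fin

/-!
Boundaries of the components of the complement of the limits of the closed lattice path which traces
the outer boundary of the largest critical cluster: probability bounds.
-/

set_option autoImplicit false

namespace Pool.Agent.V5helper90.LU

open H974 H12S Finset H389NS H984P H984N H342P H342L H342T
open MeasureTheory Filter Topology Measure Pool.Agent.W92.DP Pool.Agent.W462.DPL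
open Pool.Agent.W424.OD Pool.Agent.TH990.FU Pool.Agent.W822.PD Pool.Agent.W978.PDUL
open Pool.Agent.W571.DPad
open scoped ENNReal NNReal

/-! ### Events on curves -/

theorem preC_open (z : ℂ) (r ρ ζ : ℝ) : IsOpen (Curve.path ⁻¹' Ev3 z r ρ ζ) := by
  rw [Metric.isOpen_iff]
  intro c hc
  obtain ⟨ε, hε, h⟩ := Ev3_near hc
  refine ⟨ε, hε, fun c' hcc' => ?_⟩
  rw [Metric.mem_ball, Curve.dist_def, cdist_eq] at hcc'
  obtain ⟨φ, hφ⟩ := exists_lt_of_ciInf_lt hcc'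
  refine h c'.path φ.toEquiv fun x => ?_
  have h1 := ContinuousMap.dist_apply_le_dist (f := c'.path) (g := rep c.path φ) x
  rw [rep_apply] at h1
  exact lt_of_le_of_lt h1 hφ

theorem preE_open (z : ℂ) (r ρ : ℝ) : IsOpen (Curve.path ⁻¹' E3U z r ρ) := by
  unfold E3U
  rw [Set.preimage_iUnion]
  exact isOpen_iUnion fun j => preC_open _ _ _ _

/-- The event only depends on the range. -/
theorem Ev3_range {z : ℂ} {r ρ ζ : ℝ} {f f' : C(unitInterval, ℂ)}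
    (h : Set.range f = Set.range f') (hf : f ∈ Ev3 z r ρ ζ) : f' ∈ Ev3 z r ρ ζ := by
  have key : ∀ s, ∃ s', f' s' = f s := by
    intro s
    have : f s ∈ Set.range f' := h ▸ ⟨s, rfl⟩
    exact this
  have key' : ∀ s, ∃ s', f s' = f' s := by
    intro s
    have : f' s ∈ Set.range f := h ▸ ⟨s, rfl⟩
    exact this
  obtain ⟨⟨s, hs⟩, ⟨s', hs'⟩, g, hg0, hg1, hg⟩ := hf
  obtain ⟨a, ha⟩ := key s
  obtain ⟨b, hb⟩ := key s'
  refine ⟨⟨a, by rw [ha]; exact hs⟩, ⟨b, by rw [hb]; exact hs'⟩, g, hg0, hg1, fun x t => ?_⟩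
  obtain ⟨y, hy⟩ := key' x
  rw [← hy]
  exact hg y t

/-! ### Lattice -/

theorem zp_pt (n : ℕ) (v : ℤ × ℤ) : zp (1 / (n : ℝ)) 0 v = pt n v := by
  apply Complex.ext
  · show (0 : ℝ) + 1 / (n : ℝ) * v.1 = v.1 / n
    ring
  · show (0 : ℝ) + 1 / (n : ℝ) * v.2 = v.2 / n
    ring

theorem vz_ctc (δ : ℝ) (z : ℂ) : vz δ 0 z = ctc δ z := by
  show (⌊(z.re - 0) / δ⌋, ⌊(z.im - 0) / δ⌋) = (⌊z.re / δ⌋, ⌊z.im / δ⌋)
  rw [sub_zero, sub_zero]

/-- The states of a periodic orbit are an invariant set. -/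
theorem orb_inv {F : Set Edg} {σ : St} {N : ℕ} (hN : 0 < N) (hper : orb F σ N = σ) (τ : St) :
    τ ∈ {τ | ∃ t, orb F σ t = τ} ↔ nxt F τ ∈ {τ | ∃ t, orb F σ t = τ} := by
  constructor
  · rintro ⟨t, rfl⟩
    exact ⟨t + 1, orb_succ _ _ _⟩
  · rintro ⟨t, ht⟩
    cases t with
    | succ t =>
      rw [orb_succ] at ht
      exact ⟨t, (nxt_bij _).1 ht⟩
    | zero =>
      obtain ⟨p, rfl⟩ : ∃ p', N = p' + 1 := ⟨N - 1, by omega⟩
      rw [orb_succ] at hper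
      refine ⟨p, (nxt_bij F).1 ?_⟩
      rw [hper, ← ht]
      rfl

/-- Every state of a periodic orbit is visited before the period. -/
theorem orb_vis {F : Set Edg} {σ : St} {N : ℕ} (hN : 0 < N) (hper : orb F σ N = σ) (t : ℕ) :
    ∃ k < N, orb F σ k = orb F σ t := by
  induction t with
  | zero => exact ⟨0, hN, rfl⟩
  | succ t ih =>
    obtain ⟨k, hk, he⟩ := ih
    rcases Nat.lt_or_eq_of_le (Nat.succ_le_of_lt hk) with h | h
    · exact ⟨k + 1, h, by rw [orb_succ, orb_succ, he]⟩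
    · refine ⟨0, hN, ?_⟩
      rw [orb_succ, ← he, ← orb_succ]
      change σ = orb F σ (k.succ)
      rw [h, hper]

/-- A vertex of the orbit is on the path. -/
theorem poly_node {N : ℕ} (hN : 0 < N) (f : ℕ → ℂ) {k : ℕ} (hk : k < N) :
    ∃ s : unitInterval, poly f N s = f k := by
  have hN' : (0:ℝ) < N := by exact_mod_cast hN
  have hkN : (k : ℝ) ≤ N := by exact_mod_cast hk.le
  refine ⟨⟨(k : ℝ) / N, by positivity, by rw [div_le_one hN']; exact hkN⟩, ?_⟩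
  have e : (N : ℝ) * ((k : ℝ) / N) = k := by field_simp
  rw [POL_formula f N k hk _ (by show (k : ℝ) ≤ (N : ℝ) * ((k : ℝ) / N); rw [e])
    (by show (N : ℝ) * ((k : ℝ) / N) ≤ k + 1; rw [e]; linarith)]
  show f k + (((N : ℝ) * ((k : ℝ) / N) - k : ℝ) : ℂ) * (f (k + 1) - f k) = f k
  rw [e, sub_self, Complex.ofReal_zero, zero_mul, add_zero]

/-- **The deterministic part for the tracing path.** -/
theorem detL {z : ℂ} {r d ζ : ℝ} {n : ℕ} (hn : 0 < n) (hδr : 1 / (n : ℝ) ≤ r)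
    (hd : 256 * r ≤ d) (hζ : 8 * (1 / (n : ℝ)) ≤ ζ) {F : Finset Edg} {v : ℤ × ℤ} {c : Curve}
    (hT : IsTrace n F v c) (hE : c.path ∈ Ev3 z r (d / 2) ζ) :
    A3v (ctc (1 / n) z) (⌈r / (1 / (n : ℝ))⌉₊ + 3 + 2) (⌊d / (8 * (1 / (n : ℝ)))⌋₊ - 2) ↑F ∨
      A3v (ctc (1 / n) z) (⌈r / (1 / (n : ℝ))⌉₊ + 3 + 2) (⌊d / (8 * (1 / (n : ℝ)))⌋₊ - 2)
        (dl '' (↑F : Set Edg)ᶜ) := by
  have hδ : (0:ℝ) < 1 / n := by positivity
  obtain ⟨⟨s, hs⟩, ⟨s', hs'⟩, g, hg0, hg1, hg⟩ := hE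
  obtain ⟨σ, N, hN, _, _, hper, hmin, hpath⟩ := hT
  have hr : 0 < r := hδ.trans_le hδr
  have hd0 : 0 < d := by linarith
  have hst' : ∀ k < N, dist (pt n (orb (↑F) σ k).1) (pt n (orb (↑F) σ (k + 1)).1) ≤ 1 / (n : ℝ) :=
    fun k _ => pt_step' hn _ σ k
  rw [hpath] at hs hs'
  obtain ⟨i, hiN, -, hi⟩ := poly_close hN hst' s
  obtain ⟨j, hjN, -, hj⟩ := poly_close hN hst' s'
  -- cut the path
  obtain ⟨g', g1, g2, g3, g4⟩ := cut g (z := z) (ρ := d / 2) (by linarith) hg1.le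
  have hmain := det_gen (o := 0) (z := z) (r := r) (d := d) hδ hδr hd (C := (↑F : Set Edg))
    (A := {τ | ∃ t, orb (↑F) σ t = τ}) (orb_inv hN hper) hs hs' (g := g')
    (by rw [g1]; exact hg0) g2.ge ?_ (σ := orb (↑F) σ i) (τ := orb (↑F) σ j) ⟨i, rfl⟩ ?_ ?_ ?_ ?_
  · rwa [vz_ctc] at hmain
  · intro t u hu q hq
    obtain ⟨m, hm⟩ := hq
    obtain ⟨k, hk, he⟩ := orb_vis hN hper m
    obtain ⟨x, hx⟩ := poly_node hN (fun j => pt n (orb (↑F) σ j).1) hk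
    obtain ⟨t', ht'⟩ := g4 t
    have h7 := hg x t'
    rw [← ht', hpath, hx] at h7
    simp only [he, hm] at h7
    have h4 := hu.dist hδ
    rw [zp_pt] at h4
    linarith
  · rw [zp_pt]; linarith
  · rw [zp_pt]; linarith
  · exact (pb_reach _ _ _).symm.trans (pb_reach _ _ _)
  · have h1 := (reach_dl (F := (↑F : Set Edg)ᶜ)).2 (pb_dreach (↑F) σ i)
    have h2 := (reach_dl (F := (↑F : Set Edg)ᶜ)).2 (pb_dreach (↑F) σ j)
    exact h1.symm.trans h2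

section
variable {sel : (n : ℕ) → Finset Plain.Edge → ℤ × ℤ} {γ : (n : ℕ) → Finset Plain.Edge → Curve}

/-- Every curve of the sequence has the trace of a tracing path. -/
def TrR (sel : (n : ℕ) → Finset Plain.Edge → ℤ × ℤ) (γ : (n : ℕ) → Finset Plain.Edge → Curve) :
    Prop := ∀ n F, 0 < n → F ⊆ Plain.edges n →
  ∃ c, IsTrace n F (sel n F) c ∧ Set.range (γ n F).path = Set.range c.path

/-- the probability bound -/
theorem probL (hU : U3) (hT : TrR sel γ) :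
    ∃ C : ℝ, 0 < C ∧ ∀ (z : ℂ) (r d ζ : ℝ) (n : ℕ), 0 < r → r ≤ d →
      Metric.ball z d ⊆ Sq → 0 < n → 1 / (n : ℝ) ≤ r → 8 * (1 / (n : ℝ)) ≤ ζ →
        (lawOf n (γ n) : Measure Curve) (Curve.path ⁻¹' Ev3 z r (d / 2) ζ) ≤
          ENNReal.ofReal (C * (r / d) ^ (2/3 : ℝ)) := by
  obtain ⟨Cd, hCd, hD'⟩ := u3d hU
  obtain ⟨Ca, hCa, hA'⟩ := hU
  refine ⟨(Ca + Cd + 1) * 256 ^ (2/3 : ℝ), by positivity, ?_⟩
  intro z r d ζ n hr hrd hball hn hδr hζ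
  have hd0 : 0 < d := hr.trans_le hrd
  have hδ : (0:ℝ) < 1 / n := by positivity
  rw [lawOf_apply n _ (preC_open z r (d / 2) ζ).measurableSet]
  apply ENNReal.ofReal_le_ofReal
  have hq : 0 < r / d := by positivity
  have hRHS : (Ca + Cd + 1) * 256 ^ (2/3 : ℝ) * (r / d) ^ (2/3 : ℝ) =
      (Ca + Cd + 1) * (256 * (r / d)) ^ (2/3 : ℝ) := by
    rw [Real.mul_rpow (by norm_num) hq.le]
    ring
  rw [hRHS]
  have okh : Ok (fun _ : Edg => (1/2:ℝ)) := fun _ => ⟨by norm_num, by norm_num⟩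
  by_cases h256 : 256 * r ≤ d
  · obtain ⟨s1, s2, s3, s4⟩ := sizes hδ hδr h256
    obtain ⟨b1, b2, b3, b4⟩ := dom_boxC hn (by linarith) hball
    have hsub1 : ∀ k : ℕ, k ≤ ⌊d / (8 * (1 / (n : ℝ)))⌋₊ →
        H12S.blk (ctc (1 / n) z) k ⊆ RE 0 n 0 n := by
      intro k hk
      refine (RE_subset ?_ ?_ ?_ ?_) <;> omega
    have h1 := hA' (ctc (1 / n) z) (⌈r / (1 / (n : ℝ))⌉₊ + 3 + 2)
      (⌊d / (8 * (1 / (n : ℝ)))⌋₊ - 2) (by omega) s2 (RE 0 n 0 n) (hsub1 _ (by omega))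
    have h2 := hD' (ctc (1 / n) z) (⌈r / (1 / (n : ℝ))⌉₊ + 3 + 2)
      (⌊d / (8 * (1 / (n : ℝ)))⌋₊ - 2) (by omega) s2 (RE 0 n 0 n) (hsub1 _ (by omega))
    have hmono : Plain.prob n (fun F => γ n F ∈ Curve.path ⁻¹' Ev3 z r (d / 2) ζ) ≤
        Pr (fun _ => (1/2:ℝ)) (RE 0 n 0 n) (fun F =>
          A3v (ctc (1 / n) z) (⌈r / (1 / (n : ℝ))⌉₊ + 3 + 2) (⌊d / (8 * (1 / (n : ℝ)))⌋₊ - 2) ↑F ∨
          A3v (ctc (1 / n) z) (⌈r / (1 / (n : ℝ))⌉₊ + 3 + 2) (⌊d / (8 * (1 / (n : ℝ)))⌋₊ - 2)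
            (dl '' (↑F : Set Edg)ᶜ)) := by
      apply Plain.prob_le_of_pr
      intro F hF hE
      obtain ⟨c, hc, hcr⟩ := hT n F hn hF
      exact detL hn hδr h256 hζ hc (Ev3_range hcr hE)
    have hor := Pr_or_le okh (RE 0 n 0 n)
      (fun F => A3v (ctc (1 / n) z) (⌈r / (1 / (n : ℝ))⌉₊ + 3 + 2)
        (⌊d / (8 * (1 / (n : ℝ)))⌋₊ - 2) ↑F)
      (fun F => A3v (ctc (1 / n) z) (⌈r / (1 / (n : ℝ))⌉₊ + 3 + 2)
        (⌊d / (8 * (1 / (n : ℝ)))⌋₊ - 2) (dl '' (↑F : Set Edg)ᶜ))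
    have hpow : (((⌈r / (1 / (n : ℝ))⌉₊ + 3 + 2 : ℕ) : ℝ) /
        ((⌊d / (8 * (1 / (n : ℝ)))⌋₊ - 2 : ℕ) : ℝ)) ^ (2/3 : ℝ) ≤
        (256 * (r / d)) ^ (2/3 : ℝ) :=
      Real.rpow_le_rpow (by positivity) s4 (by norm_num)
    have hx0 : 0 ≤ (256 * (r / d)) ^ (2/3 : ℝ) := by positivity
    have h3 := mul_le_mul_of_nonneg_left hpow hCa.le
    have h4 := mul_le_mul_of_nonneg_left hpow hCd.le
    have h5 := hmono.trans (hor.trans (add_le_add (h1.trans h3) (h2.trans h4)))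
    refine h5.trans ?_
    nlinarith
  · push Not at h256
    have h1 : Plain.prob n (fun F => γ n F ∈ Curve.path ⁻¹' Ev3 z r (d / 2) ζ) ≤ 1 := by
      rw [Plain.prob_eq]
      exact Pr_le_one okh _ _
    refine h1.trans ?_
    have h2 : 1 ≤ 256 * (r / d) := by
      rw [← mul_div_assoc, le_div_iff₀ hd0]
      linarith
    have h3 : 1 ≤ (256 * (r / d)) ^ (2/3 : ℝ) := Real.one_le_rpow h2 (by norm_num)
    nlinarith

/-- the bound for the limit -/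
theorem limL (hU : U3) (hT : TrR sel γ) {k : ℕ → ℕ} (hk : Tendsto k atTop atTop)
    {μ : ProbabilityMeasure Curve} (hμ : Tendsto (fun i => lawOf (k i) (γ (k i))) atTop (𝓝 μ)) :
    ∃ C : ℝ, 0 < C ∧ ∀ (z : ℂ) (r d : ℝ), 0 < r → r ≤ d → Metric.ball z d ⊆ Sq →
        (μ : Measure Curve) (Curve.path ⁻¹' E3U z r (d / 2)) ≤
          ENNReal.ofReal (C * (r / d) ^ (2 / 3 : ℝ)) := by
  obtain ⟨C, hC, hP⟩ := probL hU hT
  refine ⟨C, hC, fun z r d hr hrd hball => ?_⟩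
  have hmono : Monotone (fun j : ℕ => Curve.path ⁻¹' Ev3 z r (d / 2) (1 / ((j:ℝ) + 1))) :=
    fun i j hij c hc => Ev3_anti (Nat.one_div_le_one_div hij) hc
  have h : Curve.path ⁻¹' E3U z r (d / 2) =
      ⋃ j : ℕ, Curve.path ⁻¹' Ev3 z r (d / 2) (1 / ((j:ℝ) + 1)) := by
    unfold E3U
    rw [Set.preimage_iUnion]
  rw [h, hmono.measure_iUnion]
  refine iSup_le fun j => ?_
  refine (ProbabilityMeasure.le_liminf_measure_open_of_tendsto hμ (preC_open _ _ _ _)).trans ?_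
  refine liminf_le_of_frequently_le (Eventually.frequently ?_)
  have hpos : 0 < min r (1 / ((j:ℝ) + 1) / 8) := lt_min hr (by positivity)
  obtain ⟨n0, hn0⟩ := exists_nat_gt (1 / min r (1 / ((j:ℝ) + 1) / 8))
  filter_upwards [tendsto_atTop.mp hk (max n0 1)] with i hi
  rw [max_le_iff] at hi
  have hki : (0:ℝ) < k i := by exact_mod_cast hi.2
  have hk2 : (n0:ℝ) ≤ k i := by exact_mod_cast hi.1
  have h3 : 1 / (k i : ℝ) ≤ min r (1 / ((j:ℝ) + 1) / 8) := by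
    rw [div_lt_iff₀ hpos] at hn0
    rw [div_le_iff₀ hki]
    nlinarith
  have k1 := h3.trans (min_le_left _ _)
  have k3 := h3.trans (min_le_right _ _)
  exact hP z r d _ (k i) hr hrd hball hi.2 k1 (by linarith)

/-- **Accessible points in a fixed set.** -/
theorem acc_fixedL (hU : U3) (hT : TrR sel γ) {k : ℕ → ℕ} (hk : Tendsto k atTop atTop)
    {μ : ProbabilityMeasure Curve} (hμ : Tendsto (fun i => lawOf (k i) (γ (k i))) atTop (𝓝 μ))
    (A : Set ℂ) :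
    ∀ᵐ c ∂(μ : Measure Curve),
      dimH ((⋃ i : ℕ, Acc (1 / ((i:ℝ) + 1)) c.path) ∩ A ∩ Sq) ≤ dimH A - ENNReal.ofReal (2 / 3) ∧
      (μH[2 / 3] A = 0 → (⋃ i : ℕ, Acc (1 / ((i:ℝ) + 1)) c.path) ∩ A ∩ Sq = ∅) := by
  obtain ⟨C, hC, hP⟩ := limL hU hT hk hμ
  refine fixed_dim (E := fun d z r => Curve.path ⁻¹' E3U z r (d / 2))
    (fun d z r => (preE_open _ _ _).measurableSet)
    (S := fun η c => Acc η c.path) ?_ Sq_open hC.le (by norm_num)
    (fun z r d hr hrd hb => hP z r d hr hrd hb) A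
  intro η d z r w p hdη hrd hw hwz
  exact E3U_of hw hwz (by linarith)

end

end Pool.Agent.V5helper90.LU
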